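import Pool.Agent.Helper16.MD.Stmts

open Finset Filter
open scoped ComplexConjugate

namespace Pool.Agent.Helper16.MD

open Pool.Agent.Helper51.Mo (PM pw len Lev Orth)

theorem apx_pm_one : PM (1 : ℝ) := Or.inl rfl

theorem apx_pm_pow (ε : ℝ) (hε : PM ε) (x : ℕ) : PM (ε ^ x) := by
  induction x with
  | zero => simpa using apx_pm_one
  | succ x ih => rw [pow_succ]; exact ih.mul hε

theorem apx_pm_mul_self {u : ℝ} (h : PM u) : u * u = 1 := by
  rcases h with rfl | rfl <;> norm_num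

open Classical in
/-- the number of bad places in one word -/
theorem apx_one (b : ℕ → ℝ) (hb : ∀ n, PM (b n)) (l : ℕ) (hl : 0 < l) (ε : ℝ) (hε : PM ε) :
    (∃ σ : ℝ, PM σ ∧ (((range l).filter (fun x => b x ≠ σ * ε ^ x)).card : ℝ) =
      l * ((1 - |(∑ x ∈ range l, ε ^ x * b x) / (l : ℝ)|) / 2)) ∧
    0 ≤ 1 - |(∑ x ∈ range l, ε ^ x * b x) / (l : ℝ)| := by
  have hl' : (0 : ℝ) < l := by exact_mod_cast hl
  obtain ⟨σ, hσ, hs⟩ : ∃ σ : ℝ, PM σ ∧
      |∑ x ∈ range l, ε ^ x * b x| = σ * ∑ x ∈ range l, ε ^ x * b x := by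
    rcases le_total 0 (∑ x ∈ range l, ε ^ x * b x) with h | h
    · exact ⟨1, apx_pm_one, by rw [abs_of_nonneg h, one_mul]⟩
    · exact ⟨-1, Or.inr rfl, by rw [abs_of_nonpos h, neg_one_mul]⟩
  have key : |∑ x ∈ range l, ε ^ x * b x| =
      l - 2 * (((range l).filter (fun x => b x ≠ σ * ε ^ x)).card : ℝ) := by
    rw [hs, Finset.mul_sum]
    have h1 : ∀ x ∈ range l, σ * (ε ^ x * b x) = 1 - 2 * (if b x ≠ σ * ε ^ x then (1 : ℝ) else 0) := by
      intro x _
      have hu : PM (σ * ε ^ x) := hσ.mul (apx_pm_pow ε hε x)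
      rw [← mul_assoc]
      rcases hu with hu | hu <;> rcases hb x with hx | hx <;> rw [hu, hx] <;> norm_num
    rw [Finset.sum_congr rfl h1, Finset.sum_sub_distrib, ← Finset.mul_sum, Finset.sum_const,
      Finset.card_range, Finset.sum_boole]
    simp
  refine ⟨⟨σ, hσ, ?_⟩, ?_⟩
  · rw [abs_div, key, abs_of_pos hl']
    field_simp
    ring
  · rw [abs_div, abs_of_pos hl', sub_nonneg, div_le_one hl', key]
    have : (0 : ℝ) ≤ (((range l).filter (fun x => b x ≠ σ * ε ^ x)).card : ℝ) := Nat.cast_nonneg _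
    linarith

theorem apx_pow (ε : ℝ) (l : ℕ) (h : ε = 1 ∨ (ε = -1 ∧ Odd l)) (y : ℕ) :
    ε ^ (l * y) = ε ^ y := by
  rcases h with rfl | ⟨rfl, ho⟩
  · simp
  · rw [pow_mul, ho.neg_one_pow]

open Classical in
theorem apx_ind (β : ℕ → ℕ → ℝ) (ℓ : ℕ → ℕ) (hℓ : ∀ i, 2 ≤ ℓ i) (hβ : ∀ i n, PM (β i n))
    (hper : ∀ i n, β i (n + ℓ i) = β i n) (i₀ : ℕ) (ε : ℝ)
    (hε : ε = 1 ∨ (ε = -1 ∧ ∀ i, i₀ ≤ i → Odd (ℓ i))) (k : ℕ) :
    ∀ j, i₀ ≤ j → ∃ σ : ℝ, PM σ ∧
      (((range (len ℓ j k)).filter (fun x => pw β ℓ j k x ≠ σ * ε ^ x)).card : ℝ) ≤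
        len ℓ j k * ∑ t ∈ range k,
          (1 - |(∑ x ∈ range (ℓ (j + t)), ε ^ x * β (j + t) x) / (ℓ (j + t) : ℝ)|) / 2 := by
  have hpm : PM ε := by
    rcases hε with h | ⟨h, -⟩
    · exact Or.inl h
    · exact Or.inr h
  induction k with
  | zero =>
    intro j _
    refine ⟨1, apx_pm_one, ?_⟩
    have : (range (len ℓ j 0)).filter (fun x => pw β ℓ j 0 x ≠ 1 * ε ^ x) = ∅ := by
      apply Finset.filter_eq_empty_iff.2
      intro x hx
      have hx0 : x = 0 := by simpa [len] using hx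
      subst hx0
      simp [pw]
    rw [this]; simp
  | succ k ih =>
    intro j hj
    obtain ⟨σ', hσ', hb'⟩ := ih (j + 1) (by omega)
    obtain ⟨⟨σ, hσ, hb⟩, -⟩ := apx_one (β j) (hβ j) (ℓ j) (by have := hℓ j; omega) ε hpm
    refine ⟨σ * σ', hσ.mul hσ', ?_⟩
    set A := (range (ℓ j)).filter (fun x => β j x ≠ σ * ε ^ x) with hA
    set B := (range (len ℓ (j + 1) k)).filter
      (fun x => pw β ℓ (j + 1) k x ≠ σ' * ε ^ x) with hB
    have hl0 : 0 < ℓ j := by have := hℓ j; omega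
    have hcard : ((range (len ℓ j (k + 1))).filter
        (fun x => pw β ℓ j (k + 1) x ≠ (σ * σ') * ε ^ x)).card ≤
        (A ×ˢ range (len ℓ (j + 1) k) ∪ range (ℓ j) ×ˢ B).card := by
      apply Finset.card_le_card_of_injOn (fun n => (n % ℓ j, n / ℓ j))
      · intro n hn
        rw [Finset.mem_coe, Finset.mem_filter, Finset.mem_range] at hn
        obtain ⟨hn1, hn2⟩ := hn
        have hx : n % ℓ j < ℓ j := Nat.mod_lt _ hl0
        have hy : n / ℓ j < len ℓ (j + 1) k := by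
          rw [Nat.div_lt_iff_lt_mul hl0, mul_comm]
          rw [len] at hn1
          exact hn1
        rw [Finset.mem_coe, Finset.mem_union, Finset.mem_product, Finset.mem_product]
        by_contra hcon
        push Not at hcon
        obtain ⟨hc1, hc2⟩ := hcon
        apply hn2
        have h1 : β j (n % ℓ j) = σ * ε ^ (n % ℓ j) := by
          by_contra h
          exact hc1 (by rw [hA, Finset.mem_filter, Finset.mem_range]; exact ⟨hx, h⟩)
            (Finset.mem_range.2 hy)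
        have h2 : pw β ℓ (j + 1) k (n / ℓ j) = σ' * ε ^ (n / ℓ j) := by
          by_contra h
          exact hc2 (Finset.mem_range.2 hx)
            (by rw [hB, Finset.mem_filter, Finset.mem_range]; exact ⟨hy, h⟩)
        have h3 : β j n = β j (n % ℓ j) := by
          have h4 := Pool.Agent.Helper51.Mo.per_mul (β j) (ℓ j) (hper j) (n / ℓ j) (n % ℓ j)
          rwa [Nat.mod_add_div] at h4
        have h5 : ε ^ n = ε ^ (n % ℓ j) * ε ^ (n / ℓ j) := by
          conv_lhs => rw [← Nat.mod_add_div n (ℓ j), pow_add]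
          rw [apx_pow ε (ℓ j) ?_ (n / ℓ j)]
          rcases hε with h | ⟨h, ho⟩
          · exact Or.inl h
          · exact Or.inr ⟨h, ho j hj⟩
        rw [pw, h3, h1, h2, h5]
        ring
      · intro a _ b _ hab
        simp only [Prod.mk.injEq] at hab
        rw [← Nat.mod_add_div a (ℓ j), ← Nat.mod_add_div b (ℓ j), hab.1, hab.2]
    have hcard2 : (A ×ˢ range (len ℓ (j + 1) k) ∪ range (ℓ j) ×ˢ B).card ≤
        A.card * len ℓ (j + 1) k + ℓ j * B.card := by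
      refine (Finset.card_union_le _ _).trans ?_
      rw [Finset.card_product, Finset.card_product, Finset.card_range, Finset.card_range]
    have hc3 : (((range (len ℓ j (k + 1))).filter
        (fun x => pw β ℓ j (k + 1) x ≠ (σ * σ') * ε ^ x)).card : ℝ) ≤
        (A.card : ℝ) * len ℓ (j + 1) k + ℓ j * (B.card : ℝ) := by
      exact_mod_cast hcard.trans hcard2
    refine hc3.trans ?_
    rw [Finset.sum_range_succ', len]
    push_cast
    have hL : (0 : ℝ) ≤ ℓ j := Nat.cast_nonneg _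
    have h6 : (ℓ j : ℝ) * (B.card : ℝ) ≤ ℓ j * (len ℓ (j + 1) k * ∑ t ∈ range k,
          (1 - |(∑ x ∈ range (ℓ (j + 1 + t)), ε ^ x * β (j + 1 + t) x) /
            (ℓ (j + 1 + t) : ℝ)|) / 2) := mul_le_mul_of_nonneg_left hb' hL
    rw [hb]
    have h7 : ∑ t ∈ range k, (1 - |(∑ x ∈ range (ℓ (j + (t + 1))), ε ^ x *
        β (j + (t + 1)) x) / (ℓ (j + (t + 1)) : ℝ)|) / 2 = ∑ t ∈ range k,
        (1 - |(∑ x ∈ range (ℓ (j + 1 + t)), ε ^ x * β (j + 1 + t) x) /
        (ℓ (j + 1 + t) : ℝ)|) / 2 := by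
      apply Finset.sum_congr rfl
      intro t _
      rw [show j + (t + 1) = j + 1 + t by ring]
    rw [h7, add_zero]
    calc (ℓ j : ℝ) * ((1 - |(∑ x ∈ range (ℓ j), ε ^ x * β j x) / (ℓ j : ℝ)|) / 2) *
          (len ℓ (j + 1) k : ℝ) + ℓ j * (B.card : ℝ)
        ≤ (ℓ j : ℝ) * ((1 - |(∑ x ∈ range (ℓ j), ε ^ x * β j x) / (ℓ j : ℝ)|) / 2) *
          (len ℓ (j + 1) k : ℝ) + ℓ j * (len ℓ (j + 1) k * ∑ t ∈ range k,
          (1 - |(∑ x ∈ range (ℓ (j + 1 + t)), ε ^ x * β (j + 1 + t) x) /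
            (ℓ (j + 1 + t) : ℝ)|) / 2) := by linarith
      _ = _ := by ring

theorem st_APX : ST_APX := by
  classical
  intro β ℓ hℓ hβ hper hDT δ hδ
  obtain ⟨i₀, ε, hε, hsum⟩ := hDT
  have hpm : PM ε := by
    rcases hε with h | ⟨h, -⟩
    · exact Or.inl h
    · exact Or.inr h
  set f : ℕ → ℝ := fun i =>
    1 - |(∑ x ∈ range (ℓ (i₀ + i)), ε ^ x * β (i₀ + i) x) / (ℓ (i₀ + i) : ℝ)| with hf
  have hf0 : ∀ i, 0 ≤ f i := fun i =>
    (apx_one (β (i₀ + i)) (hβ _) (ℓ (i₀ + i)) (by have := hℓ (i₀ + i); omega) ε hpm).2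
  have ht := tendsto_sum_nat_add f
  have he := ht.eventually (gt_mem_nhds (show (0 : ℝ) < 2 * δ by linarith))
  obtain ⟨n₀, hn₀⟩ := Filter.eventually_atTop.1 he
  refine ⟨i₀ + n₀, fun j hj => ⟨ε, ?_, fun k => ?_⟩⟩
  · rcases hε with h | ⟨h, ho⟩
    · exact Or.inl h
    · exact Or.inr ⟨h, fun i hi => ho i (by omega)⟩
  · obtain ⟨σ, hσ, hb⟩ := apx_ind β ℓ hℓ hβ hper i₀ ε hε k j (by omega)
    refine ⟨σ, hσ, ?_⟩
    have hcard : Nat.card {x : ℕ // x < len ℓ j k ∧ pw β ℓ j k x ≠ σ * ε ^ x} =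
        ((range (len ℓ j k)).filter (fun x => pw β ℓ j k x ≠ σ * ε ^ x)).card :=
      Nat.subtype_card _ (fun x => by rw [Finset.mem_filter, Finset.mem_range])
    rw [hcard]
    refine hb.trans ?_
    have hlen : (0 : ℝ) ≤ len ℓ j k := Nat.cast_nonneg _
    have hs : ∑ t ∈ range k,
        (1 - |(∑ x ∈ range (ℓ (j + t)), ε ^ x * β (j + t) x) / (ℓ (j + t) : ℝ)|) / 2 ≤ δ := by
      rw [← Finset.sum_div]
      obtain ⟨d, rfl⟩ : ∃ d, j = i₀ + d := ⟨j - i₀, by omega⟩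
      have h1 : ∑ t ∈ range k,
          (1 - |(∑ x ∈ range (ℓ (i₀ + d + t)), ε ^ x * β (i₀ + d + t) x) /
            (ℓ (i₀ + d + t) : ℝ)|) = ∑ t ∈ range k, f (t + d) := by
        apply Finset.sum_congr rfl
        intro t _
        simp only [hf]
        rw [show i₀ + (t + d) = i₀ + d + t by ring]
      rw [h1]
      have h2 : ∑ t ∈ range k, f (t + d) ≤ ∑' t, f (t + d) :=
        Summable.sum_le_tsum _ (fun i _ => hf0 _) ((summable_nat_add_iff d).2 hsum)
      have h3 := hn₀ d (by omega)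
      linarith
    calc (len ℓ j k : ℝ) * _ ≤ len ℓ j k * δ := mul_le_mul_of_nonneg_left hs hlen
      _ = δ * len ℓ j k := by ring

end Pool.Agent.Helper16.MD
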